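import Pool.Agent.Q217.Friend.Mart

set_option autoImplicit false

open MeasureTheory Filter
open scoped ENNReal Topology

namespace Pool.Agent.Results.MP_29c4b2_pr.HubMassOne

/-- The tree `T_n` on the vertices `1, …, n` coded by the attachments `w`: its edges are `{1,2}` and
`{w m, m+1}` for `2 ≤ m < n`, that is, the vertex `m + 1` was attached to the vertex `w m`. -/
def tree (w : ℕ → ℕ) (n : ℕ) : SimpleGraph ℕ :=
  SimpleGraph.fromRel fun a b => (a = 1 ∧ b = 2) ∨ ∃ m, 2 ≤ m ∧ m < n ∧ a = w m ∧ b = m + 1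

/-- The degree of the vertex `v` in `T_n`. -/
noncomputable def deg (w : ℕ → ℕ) (n v : ℕ) : ℕ := ((tree w n).neighborSet v).ncard

open Classical in
/-- `V n` and `W n` (`n ≥ 2`) are the vertices `V_n`, `W_n` of the random friend tree: given
`T_2, …, T_n`, that is, given the attachments `W_2 = w_2, …, W_{n-1} = w_{n-1}`, the pair
`(V_n, W_n)` equals `(v, x)` with probability `1 / (n * deg v)` when `v ∈ {1,…,n}` and `x` is a
neighbour of `v` in `T_n`, and with probability `0` otherwise. -/
structure IsRandomFriendTree {Ω : Type*} [MeasurableSpace Ω] (μ : Measure Ω)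
    (V W : ℕ → Ω → ℕ) : Prop where
  measurable_V : ∀ n, Measurable (V n)
  measurable_W : ∀ n, Measurable (W n)
  law : ∀ n, 2 ≤ n → ∀ (w : ℕ → ℕ) (v x : ℕ),
    μ {ω | (∀ m, 2 ≤ m → m < n → W m ω = w m) ∧ V n ω = v ∧ W n ω = x} =
      if v ∈ Finset.Icc 1 n ∧ (tree w n).Adj v x then
        μ {ω | ∀ m, 2 ≤ m → m < n → W m ω = w m} / ((n : ℝ≥0∞) * (deg w n v : ℝ≥0∞))
      else 0

/-- `Z_v`, the lower limit of `D_n(v) / n`, where `D_n(v)` is the degree of `v` in `T_n`. -/
noncomputable def Z (w : ℕ → ℕ) (v : ℕ) : ℝ := liminf (fun n : ℕ => (deg w n v : ℝ) / n) atTop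

open Pool.Agent.Q217.Friend in
theorem adj_iff {w : ℕ → ℕ} {n : ℕ} (h : Valid w n) (hn : 2 ≤ n) (a b : ℕ) :
    (tree w n).Adj a b ↔
      (b ∈ Finset.Icc 2 n ∧ par w b = a) ∨ (a ∈ Finset.Icc 2 n ∧ par w a = b) := by
  have key : ∀ a b : ℕ, ((a = 1 ∧ b = 2) ∨ ∃ m, 2 ≤ m ∧ m < n ∧ a = w m ∧ b = m + 1) ↔
      (b ∈ Finset.Icc 2 n ∧ par w b = a) := by
    intro a b
    constructor
    · rintro (⟨rfl, rfl⟩ | ⟨m, h1, h2, rfl, rfl⟩)
      · exact ⟨Finset.mem_Icc.mpr ⟨le_rfl, hn⟩, by unfold par; simp⟩
      · refine ⟨Finset.mem_Icc.mpr ⟨by omega, by omega⟩, ?_⟩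
        unfold par
        rw [if_neg (by omega)]
        rfl
    · rintro ⟨h1, h2⟩
      rw [Finset.mem_Icc] at h1
      by_cases hb : b = 2
      · left
        subst hb
        unfold par at h2
        simp at h2
        exact ⟨h2.symm, rfl⟩
      · right
        refine ⟨b - 1, by omega, by omega, ?_, by omega⟩
        unfold par at h2
        rw [if_neg hb] at h2
        exact h2.symm
  unfold tree
  rw [SimpleGraph.fromRel_adj, key a b, key b a]
  constructor
  · exact fun h => h.2
  · intro h1
    refine ⟨?_, h1⟩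
    rintro rfl
    rcases h1 with h1 | h1 <;>
    · have := par_mem h h1.1
      omega

open Pool.Agent.Q217.Friend in
theorem neighbors {w : ℕ → ℕ} {n : ℕ} (h : Valid w n) (hn : 2 ≤ n) {x : ℕ} (hx : x ∈ Finset.Icc 1 n) (v : ℕ) :
    (tree w n).Adj x v ↔ v ∈ ch w n x ∪ (if 2 ≤ x then {par w x} else ∅) := by
  rw [adj_iff h hn, Finset.mem_union, mem_ch, Finset.mem_Icc, Finset.mem_Icc]
  rw [Finset.mem_Icc] at hx
  by_cases h2 : 2 ≤ x
  · rw [if_pos h2, Finset.mem_singleton]
    constructor
    · rintro (h1 | h1)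
      · exact Or.inl h1
      · exact Or.inr h1.2.symm
    · rintro (h1 | h1)
      · exact Or.inl h1
      · exact Or.inr ⟨⟨h2, hx.2⟩, h1.symm⟩
  · rw [if_neg h2]
    constructor
    · rintro (h1 | h1)
      · exact Or.inl h1
      · omega
    · rintro (h1 | h1)
      · exact Or.inl h1
      · exact absurd h1 (Finset.notMem_empty _)

open Pool.Agent.Q217.Friend in
theorem disj {w : ℕ → ℕ} {n : ℕ} (h : Valid w n) {x : ℕ} (hx : x ∈ Finset.Icc 1 n) :
    Disjoint (ch w n x) (if 2 ≤ x then {par w x} else ∅) := by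
  rw [Finset.disjoint_left]
  intro u hu hu'
  rw [Finset.mem_Icc] at hx
  by_cases h2 : 2 ≤ x
  · rw [if_pos h2, Finset.mem_singleton] at hu'
    have h3 := mem_ch.mp hu
    have h4 := par_mem h (u := u) (Finset.mem_Icc.mpr h3.1)
    have h5 := par_mem h (u := x) (Finset.mem_Icc.mpr ⟨h2, hx.2⟩)
    omega
  · rw [if_neg h2] at hu'
    exact absurd hu' (Finset.notMem_empty _)

open Pool.Agent.Q217.Friend in
theorem deg_eq {w : ℕ → ℕ} {n : ℕ} (h : Valid w n) (hn : 2 ≤ n) {v : ℕ}
    (hv : v ∈ Finset.Icc 1 n) : deg w n v = dg w n v := by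
  have h1 : (tree w n).neighborSet v =
      ((ch w n v ∪ (if 2 ≤ v then {par w v} else ∅) : Finset ℕ) : Set ℕ) := by
    ext u
    rw [SimpleGraph.mem_neighborSet, neighbors h hn hv, Finset.mem_coe]
  unfold deg
  rw [h1, Set.ncard_coe_finset, Finset.card_union_of_disjoint (disj h hv)]
  unfold dg
  split_ifs <;> simp

open Pool.Agent.Q217.Friend in
theorem p_eq {w : ℕ → ℕ} {n : ℕ} (h : Valid w n) (hn : 2 ≤ n) {x : ℕ}
    (hx : x ∈ Finset.Icc 1 n) :
    open Classical in p w n x =
      ∑ v ∈ Finset.Icc 1 n, if (tree w n).Adj v x then 1 / ((n : ℝ) * (deg w n v : ℝ)) else 0 := by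
  classical
  rw [← Finset.sum_filter]
  have h1 : (Finset.Icc 1 n).filter (fun v => (tree w n).Adj v x) =
      ch w n x ∪ (if 2 ≤ x then {par w x} else ∅) := by
    ext v
    rw [Finset.mem_filter, (tree w n).adj_comm, neighbors h hn hx]
    constructor
    · exact fun h => h.2
    · intro h2
      refine ⟨?_, h2⟩
      rw [Finset.mem_Icc] at hx ⊢
      rw [Finset.mem_union] at h2
      rcases h2 with h2 | h2
      · have := mem_ch.mp h2
        omega
      · by_cases h3 : 2 ≤ x
        · rw [if_pos h3, Finset.mem_singleton] at h2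
          have h5 := par_mem h (u := x) (Finset.mem_Icc.mpr ⟨h3, hx.2⟩)
          omega
        · rw [if_neg h3] at h2
          exact absurd h2 (Finset.notMem_empty _)
  have h2 : ∀ v ∈ (Finset.Icc 1 n).filter (fun v => (tree w n).Adj v x),
      1 / ((n : ℝ) * (deg w n v : ℝ)) = (1 / (n : ℝ)) * (1 / (dg w n v : ℝ)) := by
    intro v hv
    rw [Finset.mem_filter] at hv
    rw [deg_eq h hn hv.1, one_div_mul_one_div]
  rw [Finset.sum_congr rfl h2, h1, Finset.sum_union (disj h hx), ← Finset.mul_sum]
  unfold p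
  by_cases h3 : 2 ≤ x
  · rw [if_pos h3, if_pos h3, Finset.sum_singleton]; ring
  · rw [if_neg h3, if_neg h3, Finset.sum_empty]; ring

open Pool.Agent.Q217.Friend in
theorem law_of {Ω : Type*} [MeasurableSpace Ω] (μ : Measure Ω) [IsProbabilityMeasure μ]
    {V W : ℕ → Ω → ℕ} (hT : IsRandomFriendTree μ V W) : Law μ W := by
  classical
  have hms : ∀ (n : ℕ) (w : ℕ → ℕ) (v x : ℕ), MeasurableSet
      {ω | (∀ m, 2 ≤ m → m < n → W m ω = w m) ∧ V n ω = v ∧ W n ω = x} := by
    intro n w v x
    have h1 : MeasurableSet {ω | ∀ m, 2 ≤ m → m < n → W m ω = w m} := by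
      have : {ω | ∀ m, 2 ≤ m → m < n → W m ω = w m} =
          ⋂ m : ℕ, ⋂ (_ : 2 ≤ m), ⋂ (_ : m < n), (W m) ⁻¹' {w m} := by
        ext ω; simp
      rw [this]
      exact MeasurableSet.iInter fun m => MeasurableSet.iInter fun _ => MeasurableSet.iInter fun _ =>
        hT.measurable_W m (measurableSet_singleton _)
    exact h1.inter ((hT.measurable_V n (measurableSet_singleton v)).inter
      (hT.measurable_W n (measurableSet_singleton x)))
  have hvalid : ∀ n, ∀ᵐ ω ∂μ, Valid (path W ω) n := by
    intro n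
    induction n with
    | zero => exact Eventually.of_forall fun ω m h1 h2 => by omega
    | succ n ih =>
      by_cases hn : 2 ≤ n
      · obtain ⟨k, rfl⟩ := Nat.exists_eq_add_of_le' hn
        have h0 : ∀ᵐ ω ∂μ, ∀ (h : Fin k → ℕ) (v x : ℕ), Valid (ext k h) (k + 2) →
            x ∉ Finset.Icc 1 (k + 2) →
            ¬ ((∀ m, 2 ≤ m → m < k + 2 → W m ω = ext k h m) ∧ V (k + 2) ω = v ∧
              W (k + 2) ω = x) := by
          rw [ae_all_iff]
          intro h
          rw [ae_all_iff]
          intro v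
          rw [ae_all_iff]
          intro x
          by_cases hv : Valid (ext k h) (k + 2) ∧ x ∉ Finset.Icc 1 (k + 2)
          · have h1 := hT.law (k + 2) (by omega) (ext k h) v x
            rw [if_neg] at h1
            · have h2 : ∀ᵐ ω ∂μ, ¬ ((∀ m, 2 ≤ m → m < k + 2 → W m ω = ext k h m) ∧
                  V (k + 2) ω = v ∧ W (k + 2) ω = x) := by
                rw [ae_iff]
                simpa using h1
              filter_upwards [h2] with ω hω _ _
              exact hω
            · rintro ⟨h2, h3⟩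
              rw [neighbors hv.1 (by omega) h2, Finset.mem_union] at h3
              apply hv.2
              rw [Finset.mem_Icc] at h2 ⊢
              rcases h3 with h3 | h3
              · have := mem_ch.mp h3
                omega
              · by_cases h4 : 2 ≤ v
                · rw [if_pos h4, Finset.mem_singleton] at h3
                  have h5 := par_mem hv.1 (u := v) (Finset.mem_Icc.mpr ⟨h4, h2.2⟩)
                  omega
                · rw [if_neg h4] at h3
                  exact absurd h3 (Finset.notMem_empty _)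
          · exact Eventually.of_forall fun ω h2 h3 => absurd ⟨h2, h3⟩ hv
        filter_upwards [ih, h0] with ω hω h1
        intro m hm1 hm2
        by_cases hm : m = k + 2
        · subst hm
          by_contra hcon
          have hag := agree_ext k (path W ω)
          have hval : Valid (ext k (restr k (path W ω))) (k + 2) := by
            intro j hj1 hj2
            rw [← hag j hj1 hj2]
            exact hω j hj1 hj2
          refine h1 (restr k (path W ω)) (V (k + 2) ω) (W (k + 2) ω) hval ?_
            ⟨fun j hj1 hj2 => hag j hj1 hj2, rfl, rfl⟩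
          rw [Finset.mem_Icc]
          exact hcon
        · exact hω m hm1 (by omega)
      · exact Eventually.of_forall fun ω m h1 h2 => by omega
  refine ⟨hT.measurable_W, ae_all_iff.mpr hvalid, ?_⟩
  intro n hn w hw x hx
  have h1 : {ω | (∀ m, 2 ≤ m → m < n → W m ω = w m) ∧ W n ω = x} =
      ⋃ v, {ω | (∀ m, 2 ≤ m → m < n → W m ω = w m) ∧ V n ω = v ∧ W n ω = x} := by
    ext ω
    simp
  rw [h1, measure_iUnion]
  · rw [tsum_eq_sum (s := Finset.Icc 1 n)]
    · rw [p_eq hw hn hx, ENNReal.ofReal_sum_of_nonneg, Finset.sum_mul]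
      · refine Finset.sum_congr rfl fun v hv => ?_
        rw [hT.law n hn w v x]
        by_cases hadj : (tree w n).Adj v x
        · rw [if_pos ⟨hv, hadj⟩, if_pos hadj]
          have hd : 1 ≤ deg w n v := by
            rw [deg_eq hw hn hv]
            exact one_le_dg hn (Finset.mem_Icc.mp hv).1
          have hnd : (0 : ℝ) < (n : ℝ) * (deg w n v : ℝ) := by
            have : (0 : ℝ) < n := by
              have : 0 < n := by omega
              exact_mod_cast this
            have : (0 : ℝ) < deg w n v := by exact_mod_cast hd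
            positivity
          rw [ENNReal.div_eq_inv_mul, one_div, ENNReal.ofReal_inv_of_pos hnd,
            ENNReal.ofReal_mul (by positivity), ENNReal.ofReal_natCast, ENNReal.ofReal_natCast]
        · rw [if_neg (fun h => hadj h.2), if_neg hadj, ENNReal.ofReal_zero, zero_mul]
      · intro v _
        split_ifs <;> positivity
    · intro v hv
      rw [hT.law n hn w v x, if_neg (fun h => hv h.1)]
  · intro a b hab
    rw [Function.onFun, Set.disjoint_left]
    rintro ω ⟨_, h2, _⟩ ⟨_, h3, _⟩
    exact hab (h2.symm.trans h3)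
  · exact fun v => hms n w v x

/-- In the random friend tree, almost surely `∑_{v ≥ 1} Z_v = 1`. -/
theorem result {Ω : Type*} [MeasurableSpace Ω] (μ : Measure Ω) [IsProbabilityMeasure μ]
    (V W : ℕ → Ω → ℕ) (hT : IsRandomFriendTree μ V W) :
    ∀ᵐ ω ∂μ, HasSum (fun i : ℕ => Z (fun m => W m ω) (i + 1)) 1 := by
  have hL := law_of μ hT
  filter_upwards [Pool.Agent.Q217.Friend.main hL, hL.valid] with ω h1 h2
  have h3 : ∀ i : ℕ, Z (fun m => W m ω) (i + 1) =
      Pool.Agent.Q217.Friend.Z (Pool.Agent.Q217.Friend.path W ω) (i + 1) := by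
    intro i
    unfold Z Pool.Agent.Q217.Friend.Z
    refine liminf_congr ?_
    filter_upwards [eventually_ge_atTop (i + 2)] with n hn
    have h4 := deg_eq (h2 n) (by omega) (v := i + 1) (Finset.mem_Icc.mpr ⟨by omega, by omega⟩)
    have h5 : deg (fun m => W m ω) n (i + 1) =
        Pool.Agent.Q217.Friend.dg (Pool.Agent.Q217.Friend.path W ω) n (i + 1) := h4
    rw [h5]
  simp only [h3]
  exact h1

end Pool.Agent.Results.MP_29c4b2_pr.HubMassOne
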